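import Pool.Agent.J6H54.CH.Stm

/-!
# CH-01: one constant for all bounds on the letters
-/

set_option autoImplicit false

namespace Pool.Agent.J6H1.CH01

open Pool.Agent.J6H54.CH

theorem m01 : S_const := by
  intro Λ _ σ T p q
  have hs : ∀ (f : Λ × ℤ → ℕ), ∀ s ∈ T, f s ≤ ∑ s ∈ T, f s := fun f s h =>
    Finset.single_le_sum (f := f) (fun _ _ => Nat.zero_le _) h
  refine ⟨1 + ∑ s ∈ T, s.2.natAbs + ∑ s ∈ T, ⌈p s.1⌉₊ + ∑ s ∈ T, ⌈q s.1⌉₊ + len σ T (0, 1) +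
    len σ T (0, -1), ?_, ?_, ?_, ?_, ?_, ?_⟩
  · omega
  · intro s h
    have := hs (fun s => s.2.natAbs) s h
    omega
  · intro s h
    have h1 := hs (fun s => ⌈p s.1⌉₊) s h
    refine (Nat.le_ceil _).trans ?_
    exact_mod_cast (by omega : ⌈p s.1⌉₊ ≤ 1 + ∑ s ∈ T, s.2.natAbs + ∑ s ∈ T, ⌈p s.1⌉₊ +
      ∑ s ∈ T, ⌈q s.1⌉₊ + len σ T (0, 1) + len σ T (0, -1))
  · intro s h
    have h1 := hs (fun s => ⌈q s.1⌉₊) s h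
    refine (Nat.le_ceil _).trans ?_
    exact_mod_cast (by omega : ⌈q s.1⌉₊ ≤ 1 + ∑ s ∈ T, s.2.natAbs + ∑ s ∈ T, ⌈p s.1⌉₊ +
      ∑ s ∈ T, ⌈q s.1⌉₊ + len σ T (0, 1) + len σ T (0, -1))
  · omega
  · omega

end Pool.Agent.J6H1.CH01
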